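import Pool.Agent.Helper53.SL.St

/-!
# Project SL, module LAM: the limit of `gam` at the first index where it is large
-/

set_option autoImplicit false

open Filter Topology

namespace Pool.Agent.Helper57.SL

open Pool.Agent.Helper53.SL

/-- the error term of the recurrence -/
noncomputable def er (τ c : ℝ) (n : ℕ) : ℝ :=
  τ * ((τ⁻¹) ^ n - (c⁻¹) ^ n) - ((τ⁻¹) ^ (n + 1) - (c⁻¹) ^ (n + 1))

theorem gam_rec {τ c : ℝ} (hτ : 1 ≤ τ) (hc : 1 ≤ c) {n : ℕ} (hn : 1 ≤ n) :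
    gam τ c (n + 1) = τ * ((n : ℝ) / ((n : ℝ) + 1)) * gam τ c n + c ^ n * (τ - c) / ((n : ℝ) + 1)
      + er τ c n / ((n : ℝ) + 1) := by
  have hn0 : (n : ℝ) ≠ 0 := by
    have : 0 < n := hn
    positivity
  have hn1 : (n : ℝ) + 1 ≠ 0 := by positivity
  have hτ0 : τ ≠ 0 := by linarith
  have hc0 : c ≠ 0 := by linarith
  have h1 : τ * ((n : ℝ) / ((n : ℝ) + 1)) * gam τ c n =
      τ * ((τ ^ n - (τ⁻¹) ^ n) - (c ^ n - (c⁻¹) ^ n)) / ((n : ℝ) + 1) := by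
    unfold gam
    field_simp
  rw [h1]
  unfold gam er
  push_cast
  rw [← add_div, ← add_div]
  congr 1
  rw [pow_succ τ, pow_succ c]
  ring

theorem er_le {τ c : ℝ} (hτ : 1 ≤ τ) (hc : 1 ≤ c) (n : ℕ) : |er τ c n| ≤ τ + 1 := by
  have b : ∀ x : ℝ, 1 ≤ x → ∀ m : ℕ, 0 ≤ (x⁻¹) ^ m ∧ (x⁻¹) ^ m ≤ 1 := by
    intro x hx m
    have h0 : 0 ≤ x⁻¹ := by positivity
    exact ⟨pow_nonneg h0 m, pow_le_one₀ h0 (inv_le_one_of_one_le₀ hx)⟩
  obtain ⟨a1, a2⟩ := b τ hτ n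
  obtain ⟨b1, b2⟩ := b c hc n
  obtain ⟨c1, c2⟩ := b τ hτ (n + 1)
  obtain ⟨d1, d2⟩ := b c hc (n + 1)
  unfold er
  have h1 : |τ * ((τ⁻¹) ^ n - (c⁻¹) ^ n)| ≤ τ := by
    rw [abs_mul, abs_of_nonneg (by linarith : (0 : ℝ) ≤ τ)]
    have : |(τ⁻¹) ^ n - (c⁻¹) ^ n| ≤ 1 := by
      rw [abs_le]
      constructor <;> linarith
    nlinarith
  have h2 : |(τ⁻¹) ^ (n + 1) - (c⁻¹) ^ (n + 1)| ≤ 1 := by
    rw [abs_le]
    constructor <;> linarith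
  calc |τ * ((τ⁻¹) ^ n - (c⁻¹) ^ n) - ((τ⁻¹) ^ (n + 1) - (c⁻¹) ^ (n + 1))|
      ≤ |τ * ((τ⁻¹) ^ n - (c⁻¹) ^ n)| + |(τ⁻¹) ^ (n + 1) - (c⁻¹) ^ (n + 1)| := abs_sub _ _
    _ ≤ τ + 1 := add_le_add h1 h2

section

variable {c : ℝ} {U : Ultrafilter ℝ} {n1 : ℝ → ℕ}

theorem ev_le (hc : Tendsto (fun τ : ℝ => τ) (U : Filter ℝ) (𝓝 c)) :
    ∀ᶠ τ in (U : Filter ℝ), τ ≤ c + 1 := by
  have := hc.eventually (Iio_mem_nhds (show c < c + 1 by linarith))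
  filter_upwards [this] with τ h
  exact le_of_lt h

theorem ev_abs (hc : Tendsto (fun τ : ℝ => τ) (U : Filter ℝ) (𝓝 c)) :
    Tendsto (fun τ : ℝ => |τ - c|) (U : Filter ℝ) (𝓝 0) := by
  have := (hc.sub_const c).abs
  simpa using this

/-- the main term of the inhomogeneity tends to zero -/
theorem main_small (h1 : StGam) (h : 1 ≤ c) (hc : Tendsto (fun τ : ℝ => τ) (U : Filter ℝ) (𝓝 c))
    (h2 : ∀ᶠ τ in (U : Filter ℝ), 1 < τ ∧ τ ≠ c) (h3 : Tendsto n1 (U : Filter ℝ) atTop)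
    (h4 : ∀ᶠ τ in (U : Filter ℝ), 1 / 8 ≤ |gam τ c (n1 τ)| ∧
      ∀ d : ℕ, 1 ≤ d → d < n1 τ → |gam τ c d| < 1 / 8) (ε : ℝ) (hε : 0 < ε) :
    ∀ᶠ τ in (U : Filter ℝ), 2 ≤ n1 τ ∧ |τ - c| * c ^ (n1 τ - 2) ≤ ((n1 τ : ℝ) - 1) * ε := by
  obtain ⟨m, hm⟩ := exists_nat_gt (1 / (4 * ε))
  have hm0 : 0 < (m : ℝ) := lt_trans (by positivity) hm
  have hm1 : 1 ≤ m := by exact_mod_cast hm0
  have hm2 : 1 / (4 * (m : ℝ)) ≤ ε := by
    rw [div_le_iff₀ (by positivity)]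
    rw [div_lt_iff₀ (by positivity)] at hm
    nlinarith
  have e1 : ∀ᶠ τ in (U : Filter ℝ), |τ - c| < 1 / (2 * m) :=
    (ev_abs hc).eventually (Iio_mem_nhds (by positivity))
  have e2 : ∀ᶠ τ in (U : Filter ℝ), m + 2 ≤ n1 τ := h3.eventually_ge_atTop (m + 2)
  filter_upwards [e1, e2, h2, h4] with τ a1 a2 a3 a4
  refine ⟨by omega, ?_⟩
  have g := (h1 τ c h a3.1 a3.2).2.2.2 m (n1 τ - 1) hm1 (by omega) (by
    have : |τ - c| * (2 * m) < 1 := by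
      rwa [lt_div_iff₀ (by positivity)] at a1
    linarith)
  have g2 := a4.2 (n1 τ - 1) (by omega) (by omega)
  have hcast : ((n1 τ - 1 : ℕ) : ℝ) = (n1 τ : ℝ) - 1 := by
    rw [Nat.cast_sub (by omega)]
    simp
  rw [hcast] at g
  have hn : 0 < (n1 τ : ℝ) - 1 := by
    have : (m : ℝ) + 2 ≤ n1 τ := by exact_mod_cast a2
    linarith
  have hpow : c ^ (n1 τ - 2) ≤ (max τ c) ^ (n1 τ - 1 - 1) := by
    have : n1 τ - 1 - 1 = n1 τ - 2 := by omega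
    rw [this]
    exact pow_le_pow_left₀ (by linarith) (le_max_right _ _) _
  have g3 : |τ - c| * c ^ (n1 τ - 2) ≤ |τ - c| * (max τ c) ^ (n1 τ - 1 - 1) :=
    mul_le_mul_of_nonneg_left hpow (abs_nonneg _)
  have g4 : |τ - c| * (max τ c) ^ (n1 τ - 1 - 1) * (m / 2) ≤ ((n1 τ : ℝ) - 1) * (1 / 8) :=
    g.trans (mul_le_mul_of_nonneg_left g2.le hn.le)
  have g5 : |τ - c| * (max τ c) ^ (n1 τ - 1 - 1) ≤ ((n1 τ : ℝ) - 1) * (1 / (4 * m)) := by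
    have e : ((n1 τ : ℝ) - 1) * (1 / (4 * m)) = (((n1 τ : ℝ) - 1) * (1 / 8)) / (m / 2) := by
      field_simp
      norm_num
    rw [e, le_div_iff₀ (by positivity)]
    exact g4
  calc |τ - c| * c ^ (n1 τ - 2) ≤ ((n1 τ : ℝ) - 1) * (1 / (4 * m)) := g3.trans g5
    _ ≤ ((n1 τ : ℝ) - 1) * ε := mul_le_mul_of_nonneg_left hm2 hn.le

/-- the inhomogeneity at `n = n1 - 1 + k` tends to zero -/
theorem inh_small (h1 : StGam) (h : 1 ≤ c) (hc : Tendsto (fun τ : ℝ => τ) (U : Filter ℝ) (𝓝 c))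
    (h2 : ∀ᶠ τ in (U : Filter ℝ), 1 < τ ∧ τ ≠ c) (h3 : Tendsto n1 (U : Filter ℝ) atTop)
    (h4 : ∀ᶠ τ in (U : Filter ℝ), 1 / 8 ≤ |gam τ c (n1 τ)| ∧
      ∀ d : ℕ, 1 ≤ d → d < n1 τ → |gam τ c d| < 1 / 8) (k : ℕ) :
    Tendsto (fun τ : ℝ => c ^ (n1 τ - 1 + k) * (τ - c) / (((n1 τ - 1 + k : ℕ) : ℝ) + 1))
      (U : Filter ℝ) (𝓝 0) := by
  have hc0 : 0 < c := by linarith
  rw [Metric.tendsto_nhds]
  intro ε hε
  have := main_small h1 h hc h2 h3 h4 (ε / (2 * c ^ (k + 1))) (by positivity)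
  filter_upwards [this] with τ hτ
  obtain ⟨a1, a2⟩ := hτ
  have e1 : n1 τ - 1 + k = (n1 τ - 2) + (k + 1) := by omega
  have hcast : ((n1 τ - 1 + k : ℕ) : ℝ) = (n1 τ : ℝ) - 1 + k := by
    rw [Nat.cast_add, Nat.cast_sub (by omega)]
    simp
  have hn : 0 < (n1 τ : ℝ) - 1 := by
    have : (2 : ℝ) ≤ n1 τ := by exact_mod_cast a1
    linarith
  have hk : (0 : ℝ) ≤ k := Nat.cast_nonneg k
  have hp : 0 < (n1 τ : ℝ) - 1 + k + 1 := by linarith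
  rw [Real.dist_eq, sub_zero, abs_div, abs_mul, abs_of_pos (pow_pos hc0 _), hcast,
    abs_of_pos hp, div_lt_iff₀ hp, e1, pow_add]
  have hck : 0 < c ^ (k + 1) := by positivity
  calc c ^ (n1 τ - 2) * c ^ (k + 1) * |τ - c| = (|τ - c| * c ^ (n1 τ - 2)) * c ^ (k + 1) := by ring
    _ ≤ (((n1 τ : ℝ) - 1) * (ε / (2 * c ^ (k + 1)))) * c ^ (k + 1) :=
        mul_le_mul_of_nonneg_right a2 hck.le
    _ = ((n1 τ : ℝ) - 1) * (ε / 2) := by field_simp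
    _ < ε * ((n1 τ : ℝ) - 1 + k + 1) := by nlinarith

theorem cast_atTop (h3 : Tendsto n1 (U : Filter ℝ) atTop) (k : ℕ) :
    Tendsto (fun τ : ℝ => (((n1 τ - 1 + k : ℕ) : ℝ) + 1)) (U : Filter ℝ) atTop := by
  apply tendsto_atTop_add_const_right
  refine tendsto_natCast_atTop_atTop.comp ?_
  rw [tendsto_atTop]
  intro b
  filter_upwards [h3.eventually_ge_atTop (b + 1)] with τ h
  omega

theorem err_small (h : 1 ≤ c) (hc : Tendsto (fun τ : ℝ => τ) (U : Filter ℝ) (𝓝 c))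
    (h2 : ∀ᶠ τ in (U : Filter ℝ), 1 < τ ∧ τ ≠ c) (h3 : Tendsto n1 (U : Filter ℝ) atTop) (k : ℕ) :
    Tendsto (fun τ : ℝ => er τ c (n1 τ - 1 + k) / (((n1 τ - 1 + k : ℕ) : ℝ) + 1))
      (U : Filter ℝ) (𝓝 0) := by
  have hinv := (cast_atTop h3 k).inv_tendsto_atTop
  have hb : Tendsto (fun τ : ℝ => (c + 2) * (((n1 τ - 1 + k : ℕ) : ℝ) + 1)⁻¹) (U : Filter ℝ) (𝓝 0) := by
    have := hinv.const_mul (c + 2)
    simpa using this
  refine squeeze_zero_norm' ?_ hb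
  filter_upwards [h2, ev_le hc] with τ a1 a2
  have hp : (0 : ℝ) < ((n1 τ - 1 + k : ℕ) : ℝ) + 1 := by positivity
  rw [Real.norm_eq_abs, abs_div, abs_of_pos hp, div_eq_mul_inv]
  refine mul_le_mul_of_nonneg_right ?_ (inv_nonneg.2 hp.le)
  have := er_le a1.1.le h (n1 τ - 1 + k)
  linarith

theorem ratio_one (h3 : Tendsto n1 (U : Filter ℝ) atTop) (k : ℕ) :
    Tendsto (fun τ : ℝ => ((n1 τ - 1 + k : ℕ) : ℝ) / (((n1 τ - 1 + k : ℕ) : ℝ) + 1))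
      (U : Filter ℝ) (𝓝 1) := by
  have hinv := (cast_atTop h3 k).inv_tendsto_atTop
  have : Tendsto (fun τ : ℝ => 1 - (((n1 τ - 1 + k : ℕ) : ℝ) + 1)⁻¹) (U : Filter ℝ) (𝓝 (1 - 0)) :=
    tendsto_const_nhds.sub hinv
  rw [sub_zero] at this
  refine this.congr ?_
  intro τ
  have hp : (0 : ℝ) < ((n1 τ - 1 + k : ℕ) : ℝ) + 1 := by positivity
  field_simp
  ring

/-- bounded functions have a limit along an ultrafilter -/
theorem ultra_lim (f : ℝ → ℝ) (C : ℝ) (hf : ∀ᶠ τ in (U : Filter ℝ), |f τ| ≤ C) :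
    ∃ lam : ℝ, Tendsto f (U : Filter ℝ) (𝓝 lam) := by
  have hK : IsCompact (Set.Icc (-C) C) := isCompact_Icc
  have hm : Set.Icc (-C) C ∈ (U.map f) := by
    rw [Ultrafilter.mem_map]
    filter_upwards [hf] with τ h
    exact abs_le.1 h
  obtain ⟨lam, -, hl⟩ := hK.ultrafilter_le_nhds (U.map f) (le_principal_iff.2 hm)
  exact ⟨lam, hl⟩

end

theorem hLam (h1 : StGam) : StLam := by
  intro c U n1 h hc h2 h3 h4
  have hinh := inh_small h1 h hc h2 h3 h4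
  have herr := err_small h hc h2 h3
  have hrat := ratio_one (U := U) h3
  have hge2 : ∀ᶠ τ in (U : Filter ℝ), 2 ≤ n1 τ := h3.eventually_ge_atTop 2
  -- recurrence at `n1 - 1 + k`
  have hrec : ∀ k : ℕ, ∀ᶠ τ in (U : Filter ℝ), gam τ c (n1 τ + k) =
      τ * (((n1 τ - 1 + k : ℕ) : ℝ) / (((n1 τ - 1 + k : ℕ) : ℝ) + 1)) * gam τ c (n1 τ - 1 + k)
      + c ^ (n1 τ - 1 + k) * (τ - c) / (((n1 τ - 1 + k : ℕ) : ℝ) + 1)
      + er τ c (n1 τ - 1 + k) / (((n1 τ - 1 + k : ℕ) : ℝ) + 1) := by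
    intro k
    filter_upwards [hge2, h2] with τ a1 a2
    have e : n1 τ + k = (n1 τ - 1 + k) + 1 := by omega
    rw [e]
    exact gam_rec a2.1.le h (by omega)
  -- the bound at `n1`
  have hbd : ∀ᶠ τ in (U : Filter ℝ), |gam τ c (n1 τ)| ≤ τ * (1 / 8)
      + |c ^ (n1 τ - 1 + 0) * (τ - c) / (((n1 τ - 1 + 0 : ℕ) : ℝ) + 1)|
      + |er τ c (n1 τ - 1 + 0) / (((n1 τ - 1 + 0 : ℕ) : ℝ) + 1)| := by
    filter_upwards [hrec 0, h4, h2, hge2] with τ a1 a2 a3 a4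
    rw [add_zero] at a1
    rw [a1]
    refine (abs_add_le _ _).trans (add_le_add ((abs_add_le _ _).trans (add_le_add ?_ le_rfl)) le_rfl)
    rw [abs_mul, abs_mul, abs_of_pos (by linarith [a3.1] : (0 : ℝ) < τ), mul_assoc]
    refine mul_le_mul_of_nonneg_left ?_ (by linarith [a3.1])
    have hp : (0 : ℝ) < ((n1 τ - 1 + 0 : ℕ) : ℝ) + 1 := by positivity
    have r1 : |((n1 τ - 1 + 0 : ℕ) : ℝ) / (((n1 τ - 1 + 0 : ℕ) : ℝ) + 1)| ≤ 1 := by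
      rw [abs_of_nonneg (by positivity), div_le_one hp]
      linarith
    have r2 := (a2.2 (n1 τ - 1 + 0) (by omega) (by omega)).le
    calc |((n1 τ - 1 + 0 : ℕ) : ℝ) / (((n1 τ - 1 + 0 : ℕ) : ℝ) + 1)| * |gam τ c (n1 τ - 1 + 0)|
        ≤ 1 * (1 / 8) := mul_le_mul r1 r2 (abs_nonneg _) (by norm_num)
      _ = 1 / 8 := one_mul _
  have hRHS : Tendsto (fun τ : ℝ => τ * (1 / 8)
      + |c ^ (n1 τ - 1 + 0) * (τ - c) / (((n1 τ - 1 + 0 : ℕ) : ℝ) + 1)|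
      + |er τ c (n1 τ - 1 + 0) / (((n1 τ - 1 + 0 : ℕ) : ℝ) + 1)|) (U : Filter ℝ) (𝓝 (c * (1 / 8))) := by
    have := ((hc.mul_const (1 / 8)).add (hinh 0).abs).add (herr 0).abs
    simpa using this
  have hC : ∀ᶠ τ in (U : Filter ℝ), |gam τ c (n1 τ)| ≤ c * (1 / 8) + 1 := by
    filter_upwards [hbd, hRHS.eventually (Iio_mem_nhds (show c * (1 / 8) < c * (1 / 8) + 1 by linarith))]
      with τ a1 a2
    exact a1.trans a2.le
  obtain ⟨lam, hlam⟩ := ultra_lim (U := U) (fun τ => gam τ c (n1 τ)) _ hC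
  have hlo : 1 / 8 ≤ |lam| := by
    refine ge_of_tendsto hlam.abs ?_
    filter_upwards [h4] with τ a
    exact a.1
  have hup : |lam| ≤ c * (1 / 8) := le_of_tendsto_of_tendsto hlam.abs hRHS hbd
  refine ⟨lam, ?_, ?_, ?_⟩
  · intro h0
    rw [h0, abs_zero] at hlo
    norm_num at hlo
  · intro h0
    rw [h0, one_mul] at hup
    exact le_antisymm hup hlo
  · intro k
    induction k with
    | zero => simpa using hlam
    | succ k ih =>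
      have ih' : Tendsto (fun τ : ℝ => gam τ c (n1 τ - 1 + (k + 1))) (U : Filter ℝ) (𝓝 (lam * c ^ k)) := by
        refine ih.congr' ?_
        filter_upwards [hge2] with τ a
        congr 1
        omega
      have hlim := (((hc.mul (hrat (k + 1))).mul ih').add (hinh (k + 1))).add (herr (k + 1))
      have e : c * 1 * (lam * c ^ k) + 0 + 0 = lam * c ^ (k + 1) := by ring
      rw [e] at hlim
      refine hlim.congr' ?_
      filter_upwards [hrec (k + 1)] with τ a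
      exact a.symm

end Pool.Agent.Helper57.SL
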