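import Mathlib
import Pool.Agent.Helper65.SL.Base

/-! Module RVS: the `V`-part of the curvature of a split metric. -/

set_option maxSynthPendingDepth 3
set_option linter.unusedSectionVars false
set_option linter.deprecated false
set_option linter.unusedVariables false

namespace Pool.Agent.Helper57.SL

open Filter Topology
open scoped ContDiff Manifold
open Pool.Agent.Helper65.SL Pool.Agent.Helper23.Ric

variable {V W : Type*} [NormedAddCommGroup V] [NormedSpace ℝ V] [FiniteDimensional ℝ V]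
  [NormedAddCommGroup W] [NormedSpace ℝ W] [FiniteDimensional ℝ W]

variable {G : V × W → (V × W) →L[ℝ] (V × W) →L[ℝ] ℝ} {w₀ : V} {z₀ : W}

theorem parseval_rvs {n : ℕ} {B : W →L[ℝ] W →L[ℝ] ℝ} {e : Fin n → W} (he : IsOrtho B e)
    (hn : n = Module.finrank ℝ W) (x : W) : B x x = ∑ j, (B x (e j)) ^ 2 := by
  obtain ⟨b, hb, hc⟩ := ortho_basis he hn
  have h3 : ∀ j, b.repr x j = B x (e j) := fun j => hc x j
  have h1 : ∑ j, B x (e j) • e j = x := by
    have h2 := b.sum_repr x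
    simp only [h3, hb] at h2
    exact h2
  calc B x x = B x (∑ j, B x (e j) • e j) := by rw [h1]
    _ = ∑ j, (B x (e j)) ^ 2 := by
      rw [map_sum]
      refine Finset.sum_congr rfl fun j _ => ?_
      rw [map_smul, smul_eq_mul, pow_two]

/-- derivative in the direction `W` of the `V`-component of the (u,0),(0,v) Christoffel symbols -/
theorem fderiv_chris_VW_rvs (h : SplitAt G w₀ z₀) (u : V) (v y : W) :
    (fderiv ℝ (fun p => chris G p (u, 0) (0, v)) (w₀, z₀) (0, y)).1 =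
      fderiv ℝ (fun z => ell G w₀ z v) z₀ y u := by
  have h1 := (differentiableAt_chris h.good (u, 0) (0, v)).hasFDerivAt
  have h2 : HasFDerivAt (fun z : W => chris G (w₀, z) (u, 0) (0, v))
      ((fderiv ℝ (fun p => chris G p (u, 0) (0, v)) (w₀, z₀)).comp
      (ContinuousLinearMap.inr ℝ V W)) z₀ :=
    h1.comp z₀ (hasFDerivAt_prodMk_right w₀ z₀)
  have h2' : HasFDerivAt (fun z : W => (chris G (w₀, z) (u, 0) (0, v)).1)
      ((ContinuousLinearMap.fst ℝ V W).comp
      ((fderiv ℝ (fun p => chris G p (u, 0) (0, v)) (w₀, z₀)).comp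
      (ContinuousLinearMap.inr ℝ V W))) z₀ := h2.fst
  have h3 : (fun z : W => (chris G (w₀, z) (u, 0) (0, v)).1) =ᶠ[𝓝 z₀]
      fun z => ell G w₀ z v u := by
    filter_upwards [(tendsto_slice w₀ z₀).eventually h.eventually] with z hz
    exact hz.chris_VW_V u v
  have h4 : HasFDerivAt (fun z : W => ell G w₀ z v u)
      ((fderiv ℝ (fun z => ell G w₀ z v) z₀).flip u) z₀ := by
    have := (h.differentiableAt_ell v).hasFDerivAt.clm_apply (hasFDerivAt_const u z₀)
    refine this.congr_fderiv ?_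
    ext x
    simp
  have h5 := h4.congr_of_eventuallyEq h3
  have h6 := congrArg (fun L => L y) (h2'.unique h5)
  simpa using h6

/-- the form applied to the derivative of the (0,v),(0,v) Christoffel symbols -/
theorem fderiv_chris_WW_rvs (h : SplitAt G w₀ z₀) (u : V) (v : W) :
    blockV G w₀ z₀ (fderiv ℝ (fun p => chris G p (0, v) (0, v)) (w₀, z₀) (u, 0)).1 u =
      -(1 / 2) * ddW G w₀ z₀ u u v v
        - blockV G w₀ z₀ (chris G (w₀, z₀) (u, 0) ((chris G (w₀, z₀) (0, v) (0, v)).1, 0)).1 u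
        + (1 / 2) * dW G w₀ z₀ (chris G (w₀, z₀) (u, 0) (u, 0)).1 v v := by
  set p₀ : V × W := (w₀, z₀) with hp₀
  set A : V × W → V × W := fun p => chris G p (0, v) (0, v) with hA
  have hev : (fun p => G p (A p) (u, 0)) =ᶠ[𝓝 p₀]
      fun p => -(1 / 2) * fderiv ℝ G p (u, 0) (0, v) (0, v) := by
    filter_upwards [h.eventually] with p hp
    have h1 := chris_spec hp.good (0, v) (0, v) (u, 0)
    have e1 : fderiv ℝ G (p.1, p.2) (0, v) (0, v) (u, 0) = 0 := by
      rw [fderiv_symm hp.good, hp.fderiv_mixed]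
    rw [e1] at h1
    change G (p.1, p.2) (chris G (p.1, p.2) (0, v) (0, v)) (u, 0) = _
    rw [h1]
    change _ = -(1 / 2) * fderiv ℝ G (p.1, p.2) (u, 0) (0, v) (0, v)
    ring
  have hG : HasFDerivAt G (fderiv ℝ G p₀) p₀ := (differentiableAt_of_good h.good).hasFDerivAt
  have hAd : HasFDerivAt A (fderiv ℝ A p₀) p₀ := (differentiableAt_chris h.good (0, v) (0, v)).hasFDerivAt
  have hL := (hG.clm_apply hAd).clm_apply (hasFDerivAt_const ((u, 0) : V × W) p₀)
  have hdd : DifferentiableAt ℝ (fderiv ℝ G) p₀ :=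
    (h.good.smooth.fderiv_right (m := 1) (by norm_num)).differentiableAt (by simp)
  have hR := (((hdd.hasFDerivAt.clm_apply (hasFDerivAt_const ((u, 0) : V × W) p₀)).clm_apply
    (hasFDerivAt_const ((0, v) : V × W) p₀)).clm_apply
    (hasFDerivAt_const ((0, v) : V × W) p₀)).const_mul (-(1 / 2 : ℝ))
  have key := congrArg (fun L => L ((u, 0) : V × W)) (hL.unique (hR.congr_of_eventuallyEq hev))
  simp only [ContinuousLinearMap.add_apply, ContinuousLinearMap.comp_apply,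
    ContinuousLinearMap.flip_apply, ContinuousLinearMap.smul_apply, ContinuousLinearMap.zero_apply,
    map_zero, zero_add, add_zero, smul_eq_mul] at key
  have hbl : G p₀ (fderiv ℝ A p₀ (u, 0)) (u, 0) = blockV G w₀ z₀ (fderiv ℝ A p₀ (u, 0)).1 u := by
    rw [hp₀, h.apply]
    simp
  have hsp : fderiv ℝ G p₀ (u, 0) (A p₀) (u, 0) = fderiv ℝ G p₀ (u, 0) ((A p₀).1, 0) (u, 0) := by
    conv_lhs => rw [split (A p₀)]
    rw [map_add, ContinuousLinearMap.add_apply]
    have : fderiv ℝ G p₀ (u, 0) (0, (A p₀).2) (u, 0) = 0 := by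
      rw [fderiv_symm h.good, h.fderiv_mixed]
    rw [this, add_zero]
  have hco := chris_compat h.good (u, 0) ((A p₀).1, 0) (u, 0)
  have hb1 : G p₀ (chris G p₀ (u, 0) ((A p₀).1, 0)) (u, 0) =
      blockV G w₀ z₀ (chris G p₀ (u, 0) ((A p₀).1, 0)).1 u := by
    rw [hp₀, h.apply]
    simp
  have hb2 : G p₀ ((A p₀).1, 0) (chris G p₀ (u, 0) (u, 0)) =
      - (dW G w₀ z₀ (chris G p₀ (u, 0) (u, 0)).1 v v) / 2 := by
    rw [← h.chris_WW_V v v, hp₀, h.apply]
    simp [hA]
  rw [hb1, hb2] at hco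
  have hdw : ddW G w₀ z₀ u u v v = fderiv ℝ (fderiv ℝ G) p₀ (u, 0) (u, 0) (0, v) (0, v) := rfl
  rw [hdw]
  rw [hbl, hsp, hco] at key
  linarith

theorem riem_rvs (h : SplitAt G w₀ z₀) {m : ℕ} (e : Fin m → W) (he : IsOrtho (blockW G w₀ z₀) e)
    (hm : m = Module.finrank ℝ W) (u : V) (v : W) :
    blockV G w₀ z₀ (riem G (w₀, z₀) (u, 0) (0, v) (0, v)).1 u =
      blockV G w₀ z₀ (aLin G w₀ z₀ v u) u
      + (-(1 / 2) * ddW G w₀ z₀ u u v v
        + (1 / 2) * dW G w₀ z₀ (chris G (w₀, z₀) (u, 0) (u, 0)).1 v v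
        + (1 / 4) * ∑ j, (dW G w₀ z₀ u v (e j)) ^ 2) := by
  set A : V × W := chris G (w₀, z₀) (0, v) (0, v) with hA
  set K : V × W := chris G (w₀, z₀) (u, 0) (0, v) with hK
  have hA2 : A.2 = chris (blockW G w₀) z₀ v v := h.chris_WW_W v v
  have hK1 : K.1 = ell G w₀ z₀ v u := h.chris_VW_V u v
  have t3 : (chris G (w₀, z₀) (u, 0) A).1 =
      (chris G (w₀, z₀) (u, 0) (A.1, 0)).1 + ell G w₀ z₀ (chris (blockW G w₀) z₀ v v) u := by
    conv_lhs => rw [split A]
    rw [chris_add_right, Prod.fst_add, h.chris_VW_V, hA2]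
  have t4 : (chris G (w₀, z₀) (0, v) K).1 =
      ell G w₀ z₀ v (ell G w₀ z₀ v u) + (chris G (w₀, z₀) (0, v) (0, K.2)).1 := by
    conv_lhs => rw [split K]
    rw [chris_add_right, Prod.fst_add, chris_symm h.good (0, v) (K.1, 0), h.chris_VW_V, hK1]
  have t5 : blockV G w₀ z₀ (chris G (w₀, z₀) (0, v) (0, K.2)).1 u =
      - ((1 / 4) * ∑ j, (dW G w₀ z₀ u v (e j)) ^ 2) := by
    rw [h.chris_WW_V]
    have h1 : dW G w₀ z₀ u v K.2 / 2 = blockW G w₀ z₀ K.2 K.2 := (h.chris_VW_W u v K.2).symm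
    rw [neg_div, h1, parseval_rvs he hm]
    congr 1
    rw [Finset.mul_sum]
    refine Finset.sum_congr rfl fun j _ => ?_
    rw [h.chris_VW_W u v (e j)]
    ring
  have t1 := fderiv_chris_WW_rvs h u v
  have t2 := fderiv_chris_VW_rvs h u v v
  have ha : (aLin G w₀ z₀ v u : V) = - fderiv ℝ (fun z => ell G w₀ z v) z₀ v u
      + ell G w₀ z₀ (chris (blockW G w₀) z₀ v v) u - ell G w₀ z₀ v (ell G w₀ z₀ v u) := rfl
  rw [riem, Prod.fst_sub, Prod.fst_add, Prod.fst_sub, t2, t3, t4, ha]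
  simp only [map_add, map_sub, map_neg, ContinuousLinearMap.add_apply,
    ContinuousLinearMap.sub_apply, ContinuousLinearMap.neg_apply]
  rw [t1, t5]
  ring

theorem rvs (h : SplitAt G w₀ z₀) {k m : ℕ} (f : Fin k → V) (hf : IsOrtho (blockV G w₀ z₀) f)
    (hk : k = Module.finrank ℝ V) (e : Fin m → W) (he : IsOrtho (blockW G w₀ z₀) e)
    (hm : m = Module.finrank ℝ W) (v : W) :
    ∑ a, blockV G w₀ z₀ (riem G (w₀, z₀) (f a, 0) (0, v) (0, v)).1 (f a) =
      LinearMap.trace ℝ V (aLin G w₀ z₀ v)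
      + ∑ a, (-(1 / 2) * ddW G w₀ z₀ (f a) (f a) v v
        + (1 / 2) * dW G w₀ z₀ (chris G (w₀, z₀) (f a, 0) (f a, 0)).1 v v
        + (1 / 4) * ∑ j, (dW G w₀ z₀ (f a) v (e j)) ^ 2) := by
  rw [trace_ortho hf hk, ← Finset.sum_add_distrib]
  exact Finset.sum_congr rfl fun a _ => riem_rvs h e he hm (f a) v

end Pool.Agent.Helper57.SL
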